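import Pool.Agent.W188.QS.Stm2

set_option autoImplicit false

/-!
# QS2-QS: the integral of `Q` on the line `Re s = 4`, few lines
-/

open Complex MeasureTheory Set Filter Topology

namespace Pool.Agent.W885.QS

open Pool.Agent.W188.QS

lemma norm_zeta_le_two {s : ℂ} (hs : 2 ≤ s.re) : ‖riemannZeta s‖ ≤ 2 := by
  rw [zeta_eq_tsum_one_div_nat_add_one_cpow (by linarith)]
  have hterm : ∀ n : ℕ, ‖1 / ((n : ℂ) + 1) ^ s‖ ≤ 1 / ((n : ℝ) + 1) ^ 2 := by
    intro n
    have h1 : ((n : ℂ) + 1) = (((n : ℝ) + 1 : ℝ) : ℂ) := by push_cast; ring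
    rw [norm_div, norm_one, h1, Complex.norm_cpow_eq_rpow_re_of_pos (by positivity)]
    apply one_div_le_one_div_of_le (by positivity)
    rw [← Real.rpow_natCast]
    apply Real.rpow_le_rpow_of_exponent_le _ (by exact_mod_cast hs)
    have : (0 : ℝ) ≤ n := Nat.cast_nonneg n
    linarith
  have hs2 : Summable (fun n : ℕ => 1 / ((n : ℝ) + 1) ^ 2) := by
    have h := (summable_nat_add_iff 1).mpr (Real.summable_one_div_nat_pow.mpr one_lt_two)
    simpa using h
  have hz : ∑' n : ℕ, 1 / ((n : ℝ) + 1) ^ 2 = Real.pi ^ 2 / 6 := by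
    have h1 := hasSum_zeta_two
    have h2 := h1.summable.tsum_eq_zero_add
    rw [h1.tsum_eq] at h2
    simp only [Nat.cast_zero, ne_eq, OfNat.ofNat_ne_zero, not_false_eq_true, zero_pow, div_zero,
      zero_add, Nat.cast_add, Nat.cast_one] at h2
    exact h2.symm
  refine (tsum_of_norm_bounded hs2.hasSum hterm).trans ?_
  rw [hz]
  have hpi := Real.pi_lt_d2
  have hpi0 := Real.pi_pos
  nlinarith

lemma gg_eq (T s t : ℝ) : gg T s t = Real.exp (-(1 / s ^ 2) * (t - T) ^ 2) := by
  unfold gg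
  congr 1
  rw [div_pow]
  ring

lemma gg_integrable (T s : ℝ) (hs : 0 < s) : Integrable (fun t => gg T s t) := by
  have h := (integrable_exp_neg_mul_sq (b := 1 / s ^ 2) (by positivity)).comp_sub_right T
  refine h.congr (Eventually.of_forall fun t => ?_)
  exact (gg_eq T s t).symm

lemma gg_integral (T s : ℝ) (hs : 0 < s) : ∫ t, gg T s t = √Real.pi * s := by
  have h1 : (fun t => gg T s t) = fun t => (fun x => Real.exp (-(1 / s ^ 2) * x ^ 2)) (t - T) := by
    funext t
    exact gg_eq T s t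
  rw [h1, integral_sub_right_eq_self (fun x => Real.exp (-(1 / s ^ 2) * x ^ 2)) T,
    integral_gaussian]
  have h2 : Real.pi / (1 / s ^ 2) = Real.pi * s ^ 2 := by field_simp
  rw [h2, Real.sqrt_mul Real.pi_pos.le, Real.sqrt_sq hs.le]

lemma gg_pos (T s t : ℝ) : 0 < gg T s t := Real.exp_pos _

lemma GG_norm (T Δ t : ℝ) (hΔ : 1 ≤ Δ) : ‖GG T Δ (fp t)‖ ≤ Real.exp (49 / 4) * gg T Δ t := by
  unfold GG gg
  rw [Complex.norm_exp, ← Real.exp_add]
  apply Real.exp_le_exp.mpr
  have hΔ0 : (Δ : ℝ) ≠ 0 := by positivity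
  have h1 : (fp t - cp T) / (Δ : ℂ) = ((7 / 2 / Δ : ℝ) : ℂ) + (((t - T) / Δ : ℝ) : ℂ) * I := by
    unfold fp cp
    push_cast
    ring
  rw [h1]
  have h2 : ((((7 / 2 / Δ : ℝ) : ℂ) + (((t - T) / Δ : ℝ) : ℂ) * I) ^ 2).re =
      (7 / 2 / Δ) ^ 2 - ((t - T) / Δ) ^ 2 := by
    rw [sq]
    simp [Complex.mul_re, Complex.add_re, Complex.add_im]
    ring
  rw [h2]
  have h3 : (7 / 2 / Δ) ^ 2 ≤ 49 / 4 := by
    rw [div_pow, div_le_iff₀ (by positivity)]
    nlinarith
  linarith

lemma fp_re (t : ℝ) : (fp t).re = 4 := by simp [fp]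

lemma fp_im (t : ℝ) : (fp t).im = t := by simp [fp]

lemma fp_cont : Continuous fp := by
  unfold fp
  fun_prop

lemma GG_cont (T Δ : ℝ) : Continuous fun t => GG T Δ (fp t) := by
  unfold GG
  have := fp_cont
  fun_prop

lemma zeta_cont : Continuous fun t => riemannZeta (fp t) := by
  rw [continuous_iff_continuousAt]
  intro t
  have h1 : fp t ≠ 1 := by
    intro h
    have := congrArg Complex.re h
    rw [fp_re] at this
    norm_num at this
  exact (differentiableAt_riemannZeta h1).continuousAt.comp fp_cont.continuousAt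

lemma zeta_bd (t : ℝ) : ‖riemannZeta (fp t)‖ ≤ 2 := norm_zeta_le_two (by rw [fp_re]; norm_num)

/-- the integral over an interval of a function bounded by a Gaussian -/
lemma bound_int (f : ℝ → ℂ) (a b T s M : ℝ) (hab : a ≤ b) (hs : 0 < s) (hM : 0 ≤ M)
    (h : ∀ t ∈ Icc a b, ‖f t‖ ≤ M * gg T s t) : ‖∫ t in a..b, f t‖ ≤ M * (√Real.pi * s) := by
  have hint := (gg_integrable T s hs).const_mul M
  have h1 : ‖∫ t in a..b, f t‖ ≤ ∫ t in a..b, M * gg T s t := by
    apply intervalIntegral.norm_integral_le_of_norm_le hab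
    · exact Eventually.of_forall fun t ht => h t ⟨ht.1.le, ht.2⟩
    · exact hint.intervalIntegrable
  refine h1.trans ?_
  rw [intervalIntegral.integral_of_le hab]
  refine (setIntegral_le_integral hint
    (Eventually.of_forall fun t => mul_nonneg hM (gg_pos T s t).le)).trans ?_
  rw [integral_const_mul, gg_integral T s hs]

/-- the integral over the complement of an interval -/
lemma bound_compl (f : ℝ → ℂ) (a b T s M : ℝ) (hs : 0 < s) (hM : 0 ≤ M)
    (h : ∀ t, t ∉ Ioc a b → ‖f t‖ ≤ M * gg T s t) :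
    ‖∫ t in (Ioc a b)ᶜ, f t‖ ≤ M * (√Real.pi * s) := by
  have hint := (gg_integrable T s hs).const_mul M
  have h1 : ‖∫ t in (Ioc a b)ᶜ, f t‖ ≤ ∫ t in (Ioc a b)ᶜ, M * gg T s t := by
    apply norm_integral_le_of_norm_le hint.integrableOn
    exact (ae_restrict_iff' measurableSet_Ioc.compl).mpr (Eventually.of_forall fun t ht => h t ht)
  refine h1.trans ?_
  refine (setIntegral_le_integral hint
    (Eventually.of_forall fun t => mul_nonneg hM (gg_pos T s t).le)).trans ?_
  rw [integral_const_mul, gg_integral T s hs]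

lemma pw {X : ℝ} (hX : 1 ≤ X) {k N : ℕ} (h : k ≤ N) : X ^ k * X⁻¹ ^ N ≤ 1 := by
  obtain ⟨d, rfl⟩ := Nat.exists_eq_add_of_le h
  have hX0 : X ≠ 0 := by positivity
  rw [pow_add, ← mul_assoc, ← mul_pow, mul_inv_cancel₀ hX0, one_pow, one_mul]
  exact pow_le_one₀ (by positivity) (inv_le_one_of_one_le₀ hX)

/-- the pointwise bound for the tails -/
lemma tail_pt {T Δ t B : ℝ} (hB : 20 ≤ B) (hT : 1 ≤ Real.log T) (hT1 : 1 ≤ T) (hΔ : 1 ≤ Δ)
    (hΔT : B * Δ * √(Real.log T) ≤ T) (h : T / 4 ≤ |t - T|) :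
    (1 + |t|) ^ 4 * gg T Δ t ≤ 384 * Real.exp 2 * gg T (2 * Δ) t := by
  have hΔ0 : 0 < Δ := by linarith
  have hs1 : 1 ≤ √(Real.log T) := by
    rw [Real.one_le_sqrt]; exact hT
  have hΔleT : Δ ≤ T := by
    have h1 : Δ ≤ B * Δ * √(Real.log T) := by
      have h2 : Δ * 1 ≤ (B * Δ) * √(Real.log T) := by
        apply mul_le_mul _ hs1 zero_le_one (by positivity)
        nlinarith
      linarith
    linarith
  obtain ⟨x, hx⟩ : ∃ x, x = (t - T) / Δ := ⟨_, rfl⟩
  have hxt : |t - T| = Δ * |x| := by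
    rw [hx, abs_div, abs_of_pos hΔ0]
    field_simp
  have hx2 : 8 * Real.log T ≤ x ^ 2 := by
    have h1 : B * Δ * √(Real.log T) / 4 ≤ Δ * |x| := by linarith
    have h2 : B * √(Real.log T) / 4 ≤ |x| := by
      have h3 : Δ * (B * √(Real.log T) / 4) ≤ Δ * |x| := by
        calc Δ * (B * √(Real.log T) / 4) = B * Δ * √(Real.log T) / 4 := by ring
          _ ≤ _ := h1
      exact le_of_mul_le_mul_left h3 hΔ0
    have h4 : 5 * √(Real.log T) ≤ |x| := by nlinarith
    have h5 : (5 * √(Real.log T)) ^ 2 ≤ |x| ^ 2 := by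
      apply pow_le_pow_left₀ (by positivity) h4
    rw [sq_abs, mul_pow, Real.sq_sqrt (by linarith)] at h5
    linarith
  have hg1 : gg T Δ t = Real.exp (-(x ^ 2 / 2)) * Real.exp (-(x ^ 2 / 4)) *
      Real.exp (-(x ^ 2 / 4)) := by
    unfold gg
    rw [← Real.exp_add, ← Real.exp_add, hx]
    congr 1
    ring
  have hg2 : gg T (2 * Δ) t = Real.exp (-(x ^ 2 / 4)) := by
    unfold gg
    rw [hx]
    congr 1
    have : (t - T) / (2 * Δ) = (t - T) / Δ / 2 := by
      field_simp
    rw [this]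
    ring
  have h1 : Real.exp (-(x ^ 2 / 2)) ≤ (T ^ 4)⁻¹ := by
    have h2 : T ^ 4 = Real.exp (4 * Real.log T) := by
      rw [show (4 : ℝ) * Real.log T = ((4 : ℕ) : ℝ) * Real.log T by norm_num, Real.exp_nat_mul,
        Real.exp_log (by linarith)]
    rw [h2, ← Real.exp_neg]
    apply Real.exp_le_exp.mpr
    linarith
  have h2 : (1 + |t|) ^ 4 ≤ 16 * T ^ 4 * (1 + |x|) ^ 4 := by
    have h3 : 1 + |t| ≤ 2 * T * (1 + |x|) := by
      have h4 : |t| ≤ T + |t - T| := by
        have h5 := abs_add_le T (t - T)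
        rw [show T + (t - T) = t by ring, abs_of_nonneg (by linarith : (0 : ℝ) ≤ T)] at h5
        exact h5
      have h6 : Δ * |x| ≤ T * |x| := mul_le_mul_of_nonneg_right hΔleT (abs_nonneg x)
      have h7 : 0 ≤ T * |x| := mul_nonneg (by linarith) (abs_nonneg x)
      rw [hxt] at h4
      linarith
    calc (1 + |t|) ^ 4 ≤ (2 * T * (1 + |x|)) ^ 4 := pow_le_pow_left₀ (by positivity) h3 4
      _ = _ := by ring
  have h3 : (1 + |x|) ^ 4 * Real.exp (-(x ^ 2 / 4)) ≤ 24 * Real.exp 2 := by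
    have h4 : (1 + |x|) ^ 4 ≤ 24 * Real.exp (1 + |x|) := by
      have h5 := Real.pow_div_factorial_le_exp (1 + |x|) (by positivity) 4
      rw [div_le_iff₀ (by positivity)] at h5
      have h6 : ((Nat.factorial 4 : ℕ) : ℝ) = 24 := by norm_num [Nat.factorial]
      rw [h6] at h5
      linarith
    calc (1 + |x|) ^ 4 * Real.exp (-(x ^ 2 / 4)) ≤
        24 * Real.exp (1 + |x|) * Real.exp (-(x ^ 2 / 4)) :=
          mul_le_mul_of_nonneg_right h4 (Real.exp_pos _).le
      _ = 24 * Real.exp (1 + |x| - x ^ 2 / 4) := by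
          rw [mul_assoc, ← Real.exp_add]
          congr 2
      _ ≤ 24 * Real.exp 2 := by
          apply mul_le_mul_of_nonneg_left _ (by norm_num)
          apply Real.exp_le_exp.mpr
          have h7 : x ^ 2 = |x| ^ 2 := (sq_abs x).symm
          rw [h7]
          nlinarith [sq_nonneg (|x| - 2)]
  have hT4 : (0 : ℝ) < T ^ 4 := by positivity
  rw [hg1, hg2]
  calc (1 + |t|) ^ 4 * (Real.exp (-(x ^ 2 / 2)) * Real.exp (-(x ^ 2 / 4)) *
      Real.exp (-(x ^ 2 / 4))) ≤ (16 * T ^ 4 * (1 + |x|) ^ 4) * ((T ^ 4)⁻¹ *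
        Real.exp (-(x ^ 2 / 4)) * Real.exp (-(x ^ 2 / 4))) := by
        apply mul_le_mul h2 _ (by positivity) (by positivity)
        apply mul_le_mul_of_nonneg_right _ (Real.exp_pos _).le
        exact mul_le_mul_of_nonneg_right h1 (Real.exp_pos _).le
    _ = 16 * ((1 + |x|) ^ 4 * Real.exp (-(x ^ 2 / 4))) * Real.exp (-(x ^ 2 / 4)) := by
        field_simp
    _ ≤ 16 * (24 * Real.exp 2) * Real.exp (-(x ^ 2 / 4)) := by
        apply mul_le_mul_of_nonneg_right _ (Real.exp_pos _).le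
        exact mul_le_mul_of_nonneg_left h3 (by norm_num)
    _ = _ := by ring

theorem qs_qs (h : StLine) (hJ : StJ) (h3 : StI3) : StQS := by
  obtain ⟨-, -, -, -, -, -, hww, -, ⟨K, hK0, hK⟩, -⟩ := h
  obtain ⟨C3, hC3, hI3⟩ := h3
  intro k N hk hN hkN
  obtain ⟨BJ, CJ, TJ, hJ⟩ := hJ k hk
  set E := Real.exp (49 / 4) with hE
  set M1 := 2 * 4 ^ k * E with hM1
  set M2 := 4 ^ k * |C3| * E * (384 * Real.exp 2) with hM2
  have hE0 : 0 < E := Real.exp_pos _
  have hM10 : 0 ≤ M1 := by positivity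
  have hM20 : 0 ≤ M2 := by positivity
  refine ⟨max BJ 20, M1 * √Real.pi + M2 * (√Real.pi * 2) + |CJ| + 1,
    max TJ (max 8 (8 * Real.exp K + 8)), ?_, by positivity, ?_⟩
  · exact (by norm_num : (1 : ℝ) ≤ 20).trans (le_max_right _ _)
  intro c T Δ a b hc hT hlog hB ha hb
  have hTJ : TJ ≤ T := (le_max_left _ _).trans hT
  have hT8 : 8 ≤ T := (le_max_left _ _).trans ((le_max_right _ _).trans hT)
  have hTK : 8 * Real.exp K + 8 ≤ T := (le_max_right _ _).trans ((le_max_right _ _).trans hT)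
  have hlog1 : 1 ≤ Real.log T := by
    rw [Real.le_log_iff_exp_le (by linarith)]
    have := Real.exp_one_lt_d9
    linarith
  have hΔ : 1 ≤ Δ := by linarith
  have hΔ0 : 0 < Δ := by linarith
  have ha' := abs_le.mp ha
  have hb' := abs_le.mp hb
  have hab : a ≤ b := by linarith
  have hpi : 0 < √Real.pi := Real.sqrt_pos.mpr Real.pi_pos
  -- facts on `[a, b]`
  have hpt : ∀ t ∈ Icc a b, 2 ≤ ‖XX (fp t)‖ ∧ 1 ≤ t := by
    intro t ht
    have h1 : 2 * Real.exp K + 1 ≤ t := by linarith [ht.1]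
    have hexpK : 0 < Real.exp K := Real.exp_pos K
    have h2 : 1 ≤ t := by linarith
    have h4 := (hK (fp t) (by rw [fp_re]; norm_num) (by rw [fp_re]) (by rw [fp_im]; exact h2)).1
    rw [fp_re, fp_im] at h4
    refine ⟨le_trans ?_ h4, h2⟩
    have h5 : t ≤ t ^ ((4 : ℝ) - 1 / 2) := by
      calc t = t ^ (1 : ℝ) := (Real.rpow_one t).symm
        _ ≤ _ := Real.rpow_le_rpow_of_exponent_le h2 (by norm_num)
    have h6 : Real.exp (-K) * (2 * Real.exp K) = 2 := by
      rw [Real.exp_neg]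
      field_simp
    calc (2 : ℝ) = Real.exp (-K) * (2 * Real.exp K) := h6.symm
      _ ≤ Real.exp (-K) * t ^ ((4 : ℝ) - 1 / 2) := by
          apply mul_le_mul_of_nonneg_left _ (Real.exp_pos _).le
          linarith
  have hwn : ∀ t, ‖ww c N (fp t)‖ = ‖XX (fp t)‖⁻¹ ^ N := by
    intro t
    unfold ww
    rw [norm_mul, hc, one_mul, norm_pow, norm_inv]
  have hwle : ∀ t ∈ Icc a b, ‖ww c N (fp t)‖ ≤ 1 / 2 := by
    intro t ht
    rw [hwn]
    have h1 := (hpt t ht).1
    have h2 : ‖XX (fp t)‖⁻¹ ≤ 1 / 2 := by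
      rw [inv_le_comm₀ (by linarith) (by norm_num)]
      simpa using h1
    calc ‖XX (fp t)‖⁻¹ ^ N ≤ ‖XX (fp t)‖⁻¹ ^ 1 :=
          pow_le_pow_of_le_one (by positivity) (by linarith) hN
      _ ≤ 1 / 2 := by rw [pow_one]; exact h2
  have hden : ∀ t ∈ Icc a b, 1 / 2 ≤ ‖1 - ww c N (fp t)‖ := by
    intro t ht
    have h1 := norm_sub_norm_le (1 : ℂ) (ww c N (fp t))
    rw [norm_one] at h1
    linarith [hwle t ht]
  have hden0 : ∀ t ∈ Icc a b, 1 - ww c N (fp t) ≠ 0 := by
    intro t ht h0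
    have := hden t ht
    rw [h0, norm_zero] at this
    norm_num at this
  have hFF : ∀ t, ‖FF k (fp t)‖ ≤ 4 ^ k * ‖XX (fp t)‖ ^ k := by
    intro t
    unfold FF
    rw [norm_mul, norm_pow, norm_pow]
    apply mul_le_mul_of_nonneg_right _ (by positivity)
    calc ‖riemannZeta (fp t)‖ ^ (2 * k) ≤ 2 ^ (2 * k) :=
          pow_le_pow_left₀ (norm_nonneg _) (zeta_bd t) _
      _ = 4 ^ k := by rw [pow_mul]; norm_num
  -- bound for the quotient
  have hquot : ∀ t ∈ Icc a b, ∀ m : ℕ, k ≤ N * m →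
      ‖FF k (fp t) * GG T Δ (fp t) * ww c N (fp t) ^ m / (1 - ww c N (fp t))‖ ≤ M1 * gg T Δ t := by
    intro t ht m hm
    rw [norm_div, norm_mul, norm_mul, norm_pow, hwn, div_le_iff₀ (by linarith [hden t ht])]
    have h1 := GG_norm T Δ t hΔ
    have h2 := hFF t
    have h4 := hden t ht
    have hX : 1 ≤ ‖XX (fp t)‖ := by linarith [(hpt t ht).1]
    have h5 : ‖XX (fp t)‖ ^ k * (‖XX (fp t)‖⁻¹ ^ N) ^ m ≤ 1 := by
      rw [← pow_mul]
      exact pw hX hm
    have hg := gg_pos T Δ t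
    calc ‖FF k (fp t)‖ * ‖GG T Δ (fp t)‖ * (‖XX (fp t)‖⁻¹ ^ N) ^ m
        ≤ (4 ^ k * ‖XX (fp t)‖ ^ k) * (E * gg T Δ t) * (‖XX (fp t)‖⁻¹ ^ N) ^ m := by
          apply mul_le_mul_of_nonneg_right _ (by positivity)
          exact mul_le_mul h2 h1 (norm_nonneg _) (by positivity)
      _ = 4 ^ k * E * gg T Δ t * (‖XX (fp t)‖ ^ k * (‖XX (fp t)‖⁻¹ ^ N) ^ m) := by ring
      _ ≤ 4 ^ k * E * gg T Δ t * 1 := by
          apply mul_le_mul_of_nonneg_left h5 (by positivity)
      _ = M1 * gg T Δ t * (1 / 2) := by rw [hM1]; ring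
      _ ≤ M1 * gg T Δ t * ‖1 - ww c N (fp t)‖ := by
          apply mul_le_mul_of_nonneg_left h4 (by positivity)
  by_cases hcase : N + 1 = k
  · -- `k = N + 1`
    rw [if_pos hcase]
    set f : ℝ → ℂ := fun t => riemannZeta (fp t) ^ (2 * k) * XX (fp t) * GG T Δ (fp t) with hf
    set R : ℝ → ℂ := fun t => FF k (fp t) * GG T Δ (fp t) * ww c N (fp t) ^ 2 /
      (1 - ww c N (fp t)) with hR
    have hX0 : ∀ t ∈ Icc a b, XX (fp t) ≠ 0 := by
      intro t ht h0
      have := (hpt t ht).1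
      rw [h0, norm_zero] at this
      norm_num at this
    have hdec : ∀ t ∈ Icc a b, QQ c k N T Δ (fp t) = c * f t + R t := by
      intro t ht
      have h1 : FF k (fp t) * ww c N (fp t) = c * (riemannZeta (fp t) ^ (2 * k) * XX (fp t)) := by
        unfold FF ww
        rw [← hcase, pow_succ (XX (fp t)) N]
        have h2 : XX (fp t) ^ N * (XX (fp t))⁻¹ ^ N = 1 := by
          rw [← mul_pow, mul_inv_cancel₀ (hX0 t ht), one_pow]
        calc riemannZeta (fp t) ^ (2 * (N + 1)) * (XX (fp t) ^ N * XX (fp t)) *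
            (c * (XX (fp t))⁻¹ ^ N) = c * (riemannZeta (fp t) ^ (2 * (N + 1)) * XX (fp t)) *
              (XX (fp t) ^ N * (XX (fp t))⁻¹ ^ N) := by ring
          _ = _ := by rw [h2, mul_one]
      have h3 := hden0 t ht
      simp only [hf, hR]
      unfold QQ
      have h4 : c * (riemannZeta (fp t) ^ (2 * k) * XX (fp t) * GG T Δ (fp t)) =
          FF k (fp t) * ww c N (fp t) * GG T Δ (fp t) := by rw [h1]; ring
      rw [h4]
      field_simp
      ring
    -- continuity
    have hwc : ∀ t ∈ Icc a b, ∀ (c' : ℂ) (N' : ℕ), ContinuousAt (fun t => ww c' N' (fp t)) t := by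
      intro t ht c' N'
      exact (hww c' N' (fp t) (by rw [fp_re]; norm_num)
        (by rw [fp_im]; exact (hpt t ht).2)).continuousAt.comp fp_cont.continuousAt
    have hXc : ∀ t ∈ Icc a b, ContinuousAt (fun t => XX (fp t)) t := by
      intro t ht
      have h1 := hwc t ht 1 1
      have h2 : (fun t => ww 1 1 (fp t)) = fun t => (XX (fp t))⁻¹ := by
        funext t
        unfold ww
        simp
      rw [h2] at h1
      have h4 := h1.inv₀ (inv_ne_zero (hX0 t ht))
      have h5 : (fun t => (XX (fp t))⁻¹)⁻¹ = fun t => XX (fp t) := by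
        funext t
        simp
      rw [h5] at h4
      exact h4
    have hRc : ContinuousOn R (uIcc a b) := by
      rw [uIcc_of_le hab]
      intro t ht
      apply ContinuousAt.continuousWithinAt
      have h1 : ContinuousAt (fun t => FF k (fp t)) t := by
        unfold FF
        exact (zeta_cont.continuousAt.pow _).mul ((hXc t ht).pow _)
      have h2 := (GG_cont T Δ).continuousAt (x := t)
      have h4 := hwc t ht c N
      exact ((h1.mul h2).mul (h4.pow 2)).div (continuousAt_const.sub h4) (hden0 t ht)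
    have hlogT : BJ * Δ * √(Real.log T) ≤ T := by
      exact (mul_le_mul_of_nonneg_right (mul_le_mul_of_nonneg_right (le_max_left BJ 20) hΔ0.le)
        (Real.sqrt_nonneg _)).trans hB
    have hΔT : Δ ≤ T := by
      have hs1 : 1 ≤ √(Real.log T) := by
        rw [Real.one_le_sqrt]; exact hlog1
      have h20 : (20 : ℝ) ≤ max BJ 20 := le_max_right _ _
      have h1 : Δ * 1 ≤ (max BJ 20 * Δ) * √(Real.log T) := by
        apply mul_le_mul _ hs1 zero_le_one (by positivity)
        nlinarith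
      linarith
    have hfi : Integrable f := by
      have h1 := (hI3 T Δ hΔ hΔT 1 le_rfl).1
      have h2 : (fun t : ℝ => ((1 : ℕ) : ℂ) ^ (-fp t) * XX (fp t) * GG T Δ (fp t)) =
          fun t => XX (fp t) * GG T Δ (fp t) := by
        funext t
        simp
      rw [h2] at h1
      have h4 := h1.bdd_mul (c := 2 ^ (2 * k)) (f := fun t => riemannZeta (fp t) ^ (2 * k))
        ((zeta_cont.pow _).aestronglyMeasurable) (Eventually.of_forall fun t => by
          rw [norm_pow]
          exact pow_le_pow_left₀ (norm_nonneg _) (zeta_bd t) _)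
      refine h4.congr (Eventually.of_forall fun t => ?_)
      simp only [hf]
      ring
    have hint : ∫ t in a..b, QQ c k N T Δ (fp t) = c * (∫ t in a..b, f t) + ∫ t in a..b, R t := by
      have h1 : ∫ t in a..b, QQ c k N T Δ (fp t) = ∫ t in a..b, (c * f t + R t) := by
        apply intervalIntegral.integral_congr
        intro t ht
        rw [uIcc_of_le hab] at ht
        exact hdec t ht
      rw [h1, intervalIntegral.integral_add (hfi.const_mul c).intervalIntegrable
        hRc.intervalIntegrable, intervalIntegral.integral_const_mul]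
    have hRb : ‖∫ t in a..b, R t‖ ≤ M1 * (√Real.pi * Δ) :=
      bound_int R a b T Δ M1 hab hΔ0 hM10 fun t ht => hquot t ht 2 (by omega)
    have hfb : ‖∫ t in a..b, f t‖ ≤ |CJ| * (T * Real.log T ^ (2 * k - 1)) +
        M2 * (√Real.pi * (2 * Δ)) := by
      have h1 := integral_add_compl (μ := volume) (s := Ioc a b) measurableSet_Ioc hfi
      rw [← intervalIntegral.integral_of_le hab] at h1
      have h2 : ∫ t in a..b, f t = (∫ t, f t) - ∫ t in (Ioc a b)ᶜ, f t := by
        rw [← h1]; ring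
      rw [h2]
      refine (norm_sub_le _ _).trans (add_le_add ?_ ?_)
      · refine (hJ T Δ hTJ hlog hlogT).trans ?_
        rw [mul_assoc]
        apply mul_le_mul_of_nonneg_right (le_abs_self _)
        positivity
      · apply bound_compl f a b T (2 * Δ) M2 (by positivity) hM20
        intro t ht
        have h4 : T / 4 ≤ |t - T| := by
          rw [mem_Ioc, not_and, not_le] at ht
          by_cases hta : a < t
          · have := ht hta
            rw [abs_of_nonneg (by linarith)]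
            linarith
          · rw [abs_of_nonpos (by linarith)]
            linarith
        have h5 := tail_pt (le_max_right BJ 20) hlog1 (by linarith) hΔ hB h4
        simp only [hf]
        rw [norm_mul, norm_mul, norm_pow]
        have h6 : ‖riemannZeta (fp t)‖ ^ (2 * k) ≤ 4 ^ k := by
          calc ‖riemannZeta (fp t)‖ ^ (2 * k) ≤ 2 ^ (2 * k) :=
                pow_le_pow_left₀ (norm_nonneg _) (zeta_bd t) _
            _ = 4 ^ k := by rw [pow_mul]; norm_num
        have h7 : ‖XX (fp t)‖ ≤ |C3| * (1 + |t|) ^ 4 :=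
          (hC3 t).trans (mul_le_mul_of_nonneg_right (le_abs_self _) (by positivity))
        have h8 := GG_norm T Δ t hΔ
        calc ‖riemannZeta (fp t)‖ ^ (2 * k) * ‖XX (fp t)‖ * ‖GG T Δ (fp t)‖
            ≤ 4 ^ k * (|C3| * (1 + |t|) ^ 4) * (E * gg T Δ t) := by
              apply mul_le_mul _ h8 (norm_nonneg _) (by positivity)
              exact mul_le_mul h6 h7 (norm_nonneg _) (by positivity)
          _ = 4 ^ k * |C3| * E * ((1 + |t|) ^ 4 * gg T Δ t) := by ring
          _ ≤ 4 ^ k * |C3| * E * (384 * Real.exp 2 * gg T (2 * Δ) t) :=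
              mul_le_mul_of_nonneg_left h5 (by positivity)
          _ = M2 * gg T (2 * Δ) t := by rw [hM2]; ring
    rw [hint]
    have hL : 0 ≤ T * Real.log T ^ (2 * k - 1) := by positivity
    calc ‖c * (∫ t in a..b, f t) + ∫ t in a..b, R t‖ ≤ ‖c * ∫ t in a..b, f t‖ +
        ‖∫ t in a..b, R t‖ := norm_add_le _ _
      _ ≤ (|CJ| * (T * Real.log T ^ (2 * k - 1)) + M2 * (√Real.pi * (2 * Δ))) +
          M1 * (√Real.pi * Δ) := by
          rw [norm_mul, hc, one_mul]
          exact add_le_add hfb hRb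
      _ ≤ (M1 * √Real.pi + M2 * (√Real.pi * 2) + |CJ| + 1) *
          (Δ + T * Real.log T ^ (2 * k - 1)) := by
          have h1 : 0 ≤ M1 * √Real.pi := by positivity
          have h2 : 0 ≤ M2 * (√Real.pi * 2) := by positivity
          have h4 := abs_nonneg CJ
          nlinarith [mul_nonneg h1 hL, mul_nonneg h2 hL, mul_nonneg h4 hΔ0.le]
  · -- `k ≤ N`
    rw [if_neg hcase, add_zero]
    have hkN' : k ≤ N * 1 := by omega
    have h1 := bound_int (fun t => QQ c k N T Δ (fp t)) a b T Δ M1 hab hΔ0 hM10 (by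
      intro t ht
      have h2 := hquot t ht 1 hkN'
      rw [pow_one] at h2
      exact h2)
    refine h1.trans ?_
    have h2 : 0 ≤ M2 * (√Real.pi * 2) := by positivity
    have h4 := abs_nonneg CJ
    nlinarith [mul_nonneg h2 hΔ0.le, mul_nonneg h4 hΔ0.le]

end Pool.Agent.W885.QS
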